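import Mathlib
import Pool.Agent.N480.Blum.Main

/-!
# A compact linearly ordered space without the Blumberg property, in ZFC
-/

set_option autoImplicit false

namespace Pool.Agent.Results.MP_184855_gt.CompactLotsNotBlumberg

/-- There are a linearly ordered set `X` which is compact in its order topology and a function
`f : X → ℝ` such that the restriction of `f` to `D` is not continuous for any dense set `D ⊆ X`. -/
theorem result :
    ∃ (X : Type) (_ : LinearOrder X) (_ : TopologicalSpace X) (_ : OrderTopology X),
      CompactSpace X ∧
      ∃ f : X → ℝ, ∀ D : Set X, Dense D → ¬ Continuous (fun x : D => f x) := by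
  obtain ⟨S, hS, hS'⟩ := Pool.Agent.N480.Blum.exists_bistat
  let : TopologicalSpace (Pool.Agent.N480.Blum.X S) := Preorder.topology _
  have : OrderTopology (Pool.Agent.N480.Blum.X S) := ⟨rfl⟩
  exact ⟨Pool.Agent.N480.Blum.X S, inferInstance, inferInstance, inferInstance,
    Pool.Agent.N480.Blum.compactSpace_of_lub _ Pool.Agent.N480.Blum.exists_lub,
    Pool.Agent.N480.Blum.not_blumberg hS hS'⟩

end Pool.Agent.Results.MP_184855_gt.CompactLotsNotBlumberg
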